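import Pool.Agent.Helper12.NK.St
import Pool.Agent.Helper41.AJ.M_CON

/-!
# Project NK (MP_d63854_co), module KCB

In a `k`-connected graph a set of `k` vertices is attached to every component of the rest; adding a
vertex with three neighbours keeps a graph 3-connected.
-/

set_option autoImplicit false

namespace Pool.Agent.Helper34.NK

open Pool.Agent.Helper12.NK
open Pool.Agent.Helper51.AJ (IsMinor Planar Apex ExMinor Con Tch con_union con_singleton con_nonempty)

/-- the second part of (1): a component of the rest is attached to all of `S` -/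
private lemma att {V : Type} [Finite V] (G : SimpleGraph V) (U : Set V) (k : ℕ) (S : Set V)
    (hk : Kc k G U) (hS : S ⊆ U) (hc : S.ncard = k) (K : Set V) (hK : K ⊆ U \ S) (hKc : Con G K)
    (hcl : ∀ x ∈ K, ∀ y ∈ U \ S, G.Adj x y → y ∈ K) (s : V) (hs : s ∈ S) : Tch G {s} K := by
  have hX : (S \ {s}).ncard < k := by
    rw [← hc]
    exact Set.ncard_sdiff_singleton_lt_of_mem hs (Set.toFinite S)
  have hcon := hk.2 _ hX
  have hsU : s ∈ U \ (S \ {s}) := ⟨hS hs, fun h => h.2 rfl⟩
  have hsK : s ∉ K := fun h => (hK h).2 hs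
  have hKU : K ⊆ U \ (S \ {s}) := fun x hx => ⟨(hK hx).1, fun h => (hK hx).2 h.1⟩
  have hne : K ≠ U \ (S \ {s}) := by
    intro h
    rw [h] at hsK
    exact hsK hsU
  obtain ⟨x, hx, y, hy, hxy⟩ :=
    (Pool.Agent.Helper41.AJ.hCON V G _ hcon).1 K hKU (con_nonempty hKc) hne
  by_cases hys : y = s
  · rw [hys] at hxy
    exact ⟨s, rfl, x, hx, hxy.symm⟩
  · exfalso
    have hyS : y ∉ S := fun h => hy.1.2 ⟨h, hys⟩
    exact hy.2 (hcl x hx y ⟨hy.1.1, hyS⟩ hxy)

/-- **Module KCB.** -/
theorem hKCB : StKCB := by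
  intro V _ G U
  refine ⟨?_, ?_⟩
  · intro k S hk hS hc
    refine ⟨?_, fun K hK hKc hcl s hs => att G U k S hk hS hc K hK hKc hcl s hs⟩
    have hlt : S.ncard < U.ncard := by
      rw [hc]
      exact hk.1
    obtain ⟨x₀, hx₀U, hx₀S⟩ := Set.exists_mem_notMem_of_ncard_lt_ncard hlt
    have hfin : {K : Set V | x₀ ∈ K ∧ K ⊆ U \ S ∧ Con G K}.Finite := Set.toFinite _
    obtain ⟨K, ⟨hxK, hKU, hKc⟩, hmax⟩ := Set.exists_max_image
      {K : Set V | x₀ ∈ K ∧ K ⊆ U \ S ∧ Con G K} Set.ncard hfin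
      ⟨{x₀}, rfl, Set.singleton_subset_iff.2 ⟨hx₀U, hx₀S⟩, con_singleton G x₀⟩
    have hcl : ∀ x ∈ K, ∀ y ∈ U \ S, G.Adj x y → y ∈ K := by
      intro x hx y hy hxy
      by_contra hyK
      have hcon : Con G (K ∪ {y}) := con_union hKc (con_singleton G y) ⟨x, hx, y, rfl, hxy⟩
      have h1 := hmax (K ∪ {y}) ⟨Or.inl hxK, Set.union_subset hKU (Set.singleton_subset_iff.2 hy),
        hcon⟩
      rw [Set.union_singleton, Set.ncard_insert_of_notMem hyK (Set.toFinite K)] at h1
      omega
    exact ⟨K, hKU, hKc, fun s hs => att G U k S hk hS hc K hKU hKc hcl s hs⟩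
  · intro y N hk hy hN h3
    refine ⟨lt_of_lt_of_le hk.1 (Set.ncard_le_ncard (Set.subset_insert y U) (Set.toFinite _)), ?_⟩
    intro X hX
    have h1 : Con G (U \ X) := hk.2 X hX
    have h2 : Con (add (rst G U) y N) (U \ X) := by
      refine SimpleGraph.Connected.mono ?_ h1
      intro a b hab
      exact Or.inl ⟨hab, a.2.1, b.2.1⟩
    by_cases hyX : y ∈ X
    · have h4 : insert y U \ X = U \ X := by
        ext z
        constructor
        · rintro ⟨hz, hzX⟩
          rcases hz with hz | hz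
          · exact absurd (hz ▸ hyX) hzX
          · exact ⟨hz, hzX⟩
        · rintro ⟨hz, hzX⟩
          exact ⟨Or.inr hz, hzX⟩
      rw [h4]
      exact h2
    · have h4 : insert y U \ X = {y} ∪ (U \ X) := by
        ext z
        constructor
        · rintro ⟨hz, hzX⟩
          rcases hz with hz | hz
          · exact Or.inl hz
          · exact Or.inr ⟨hz, hzX⟩
        · rintro (hz | hz)
          · have hzy : z = y := hz
            rw [hzy]
            exact ⟨Or.inl rfl, hyX⟩
          · exact ⟨Or.inr hz.1, hz.2⟩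
      rw [h4]
      have hlt : X.ncard < N.ncard := lt_of_lt_of_le hX h3
      obtain ⟨b, hbN, hbX⟩ := Set.exists_mem_notMem_of_ncard_lt_ncard hlt
      refine con_union (con_singleton _ y) h2 ⟨y, rfl, b, ⟨hN hbN, hbX⟩, ?_⟩
      refine Or.inr (Or.inl ⟨rfl, hbN, ?_⟩)
      intro hby
      rw [hby] at hbN
      exact hy (hN hbN)

end Pool.Agent.Helper34.NK
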